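import Pool.Agent.N436.DF.Stm2
import Pool.Agent.N436.DF.All

/-!
# Project DF, second batch, DG/5 (helper701 for helper436): the top set for `Rng2`

Adapted from `Pool/Agent/N767/DF/Top.lean` (helper767) and `Pool/Agent/N547/DF/TopSet.lean`
(helper547).
-/

set_option autoImplicit false

namespace Pool.Agent.N701.DF

open Finset Pool.Agent.N436.DF

theorem soft2 (hlow : S_low) (hdelr : S_delr) (hs : S_trSoft) {V : Type} [DecidableEq V] {P : Par}
    {H : Hub V} {S : Finset V} {u w : V} (hR : Rng2 P) (hm : MinCex P H S) (hu : u ∈ S)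
    (hw : w ∈ S) (huw : H.r u w = 1) : ∃ X, X ⊆ S ∧ RB H S X ∧ rho P H X ≤ 2 * P.a := by
  obtain ⟨o1, r1, -⟩ := hlow V P H true u hm.ok
  obtain ⟨o2, r2, -⟩ := hlow V P (low H true u) false u o1
  obtain ⟨o3, r3, -⟩ := hlow V P (low (low H true u) false u) true w o2
  obtain ⟨o4, r4, -⟩ := hlow V P (low (low (low H true u) false u) true w) false w o3
  obtain ⟨o5, r5, -, e5, -⟩ := hdelr V P (low (low (low (low H true u) false u) true w) false w) u w
    o4 huw
  have hlt := e5 S hu hw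
  have heq : eE (low (low (low (low H true u) false u) true w) false w) S = eE H S := rfl
  rw [heq] at hlt
  have hnh : ¬ Hyp P (delr (low (low (low (low H true u) false u) true w) false w) u w) S := by
    intro hh
    exact hm.ncol (hs V P H S u w hm.ok hu hw huw (hm.ih1 _ S o5 hh hlt))
  unfold Hyp at hnh
  push Not at hnh
  obtain ⟨X, hXS, hXne, hX⟩ := hnh
  have s1 := r1 X
  have s2 := r2 X
  have s3 := r3 X
  have s4 := r4 X
  have s5 := r5 X
  have k1 : kap P true = P.a := rfl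
  have k2 : kap P false = P.b := rfl
  rw [k1] at s1 s3
  rw [k2] at s2 s4
  have hyp := hm.hyp X hXS hXne
  have hsoft := hR.hsoft
  refine ⟨X, hXS, ?_, ?_⟩
  · by_cases h1 : u ∈ X
    · by_cases h2 : w ∈ X
      · exfalso
        simp only [h1, h2, and_self, if_true] at s1 s2 s3 s4 s5
        linarith
      · exact ⟨u, h1, w, Finset.mem_sdiff.2 ⟨hw, h2⟩, huw⟩
    · by_cases h2 : w ∈ X
      · refine ⟨w, h2, u, Finset.mem_sdiff.2 ⟨hu, h1⟩, ?_⟩
        rw [hm.ok.rsymm]
        exact huw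
      · exfalso
        simp only [h1, h2, and_self, if_false] at s1 s2 s3 s4 s5
        linarith
  · by_cases h1 : u ∈ X
    · by_cases h2 : w ∈ X
      · exfalso
        simp only [h1, h2, and_self, if_true] at s1 s2 s3 s4 s5
        linarith
      · simp only [h1, h2, and_false, if_true, if_false] at s1 s2 s3 s4 s5
        linarith
    · by_cases h2 : w ∈ X
      · simp only [h1, h2, false_and, if_true, if_false] at s1 s2 s3 s4 s5
        linarith
      · exfalso
        simp only [h1, h2, and_self, if_false] at s1 s2 s3 s4 s5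
        linarith

theorem top2_of (hlow : S_low) (hdelr : S_delr) (hs : S_trSoft) (he0 : S_E0) (hcaps : S_caps) :
    S_top2 := by
  classical
  intro V _ P H S hR hm
  have hex : ∃ u ∈ S, ∃ w ∈ S, H.r u w = 1 := by
    by_contra hcon
    push Not at hcon
    refine hm.ncol (he0 V P H S hm.ok hm.hyp (fun v hv i => hcaps V P H S hm v hv i) ?_)
    intro u hu v hv
    exact (hm.ok.r01 u v).resolve_right (hcon u hu v hv)
  obtain ⟨u, hu, w, hw, huw⟩ := hex
  obtain ⟨X₁, hX₁S, hX₁B, hX₁r⟩ := soft2 hlow hdelr hs hR hm hu hw huw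
  have hF : (S.powerset.filter (fun Y => RB H S Y)).Nonempty :=
    ⟨X₁, Finset.mem_filter.2 ⟨Finset.mem_powerset.2 hX₁S, hX₁B⟩⟩
  obtain ⟨X₀, hX₀, hmin⟩ := Finset.exists_min_image _ (fun Y => rho P H Y) hF
  have hF' : ((S.powerset.filter (fun Y => RB H S Y)).filter
      (fun Y => rho P H Y = rho P H X₀)).Nonempty := ⟨X₀, Finset.mem_filter.2 ⟨hX₀, rfl⟩⟩
  obtain ⟨X, hX, hmax⟩ := Finset.exists_max_image _ (fun Y => Y.card) hF'
  rw [Finset.mem_filter, Finset.mem_filter, Finset.mem_powerset] at hX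
  obtain ⟨⟨hXS, hXB⟩, hXr⟩ := hX
  have hXB' := hXB
  obtain ⟨u', hu', w', hw', huw'⟩ := hXB
  have hmin' : ∀ Y, Y ⊆ S → RB H S Y → rho P H X ≤ rho P H Y := by
    intro Y hY hYB
    rw [hXr]
    exact hmin Y (Finset.mem_filter.2 ⟨Finset.mem_powerset.2 hY, hYB⟩)
  refine ⟨X, u', w', ⟨hR, hm, hXS, hu', hw', huw', ?_, hmin', ?_⟩⟩
  · exact (hmin' X₁ hX₁S hX₁B).trans hX₁r
  · intro Y hXY hY hYB
    rcases (hmin' Y hY hYB).lt_or_eq with h | h
    · exact h
    · exfalso
      have h1 := hmax Y (Finset.mem_filter.2 ⟨Finset.mem_filter.2 ⟨Finset.mem_powerset.2 hY, hYB⟩,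
        by rw [← h, hXr]⟩)
      have h2 := Finset.card_lt_card hXY
      exact absurd h1 (not_le.2 h2)

variable {V : Type} [DecidableEq V]

/-- basic facts on the top set -/
lemma tf {P : Par} {H : Hub V} {S X : Finset V} {u w : V} (h : Top2 P H S X u w) :
    X.Nonempty ∧ X ≠ S ∧ u ∈ S ∧ w ∈ S ∧ w ∉ X ∧ 0 < rho P H S + 2 * P.b := by
  have hw := mem_sdiff.1 h.hw
  refine ⟨⟨u, h.hu⟩, ?_, h.sub h.hu, hw.1, hw.2, ?_⟩
  · rintro rfl
    exact hw.2 hw.1
  · have := h.mc.hyp S (Subset.refl _) ⟨w, hw.1⟩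
    linarith

/-- the union with a proper subset of the complement -/
lemma union_ge (ha1 : S_A1) {P : Par} {H : Hub V} {S X Y : Finset V} {u w : V}
    (h : Top2 P H S X u w) (hY : Y ⊆ S \ X) (hne : Y ≠ S \ X) :
    rho P H S + 2 * P.b + 2 * P.d ≤ rho P H (Y ∪ X) := by
  obtain ⟨h1, h2, h3, h4, h5, h6⟩ := tf h
  refine ha1 V P H S (Y ∪ X) h.mc ?_ ?_ ?_
  · exact union_subset (hY.trans sdiff_subset) h.sub
  · exact h1.mono subset_union_right
  · intro h7
    apply hne
    apply Subset.antisymm hY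
    intro z hz
    rw [mem_sdiff] at hz
    have : z ∈ Y ∪ X := by rw [h7]; exact hz.1
    rcases mem_union.1 this with h8 | h8
    · exact h8
    · exact absurd h8 hz.2

lemma eE_mono {P : Par} {H : Hub V} (hok : Ok P H) {X S : Finset V} (h : X ⊆ S) :
    eE H X ≤ eE H S := by
  unfold eE
  have hnn : ∀ a b, 0 ≤ H.r a b := fun a b => by
    rcases hok.r01 a b with h | h <;> rw [h]
    norm_num
  calc ∑ u ∈ X, ∑ v ∈ X, H.r u v ≤ ∑ u ∈ X, ∑ v ∈ S, H.r u v :=
        sum_le_sum fun u _ => sum_le_sum_of_subset_of_nonneg h fun v _ _ => hnn u v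
    _ ≤ ∑ u ∈ S, ∑ v ∈ S, H.r u v :=
        sum_le_sum_of_subset_of_nonneg h fun v _ _ => sum_nonneg fun _ _ => hnn _ _

theorem prop2_of (hkr : S_killRho) (ha1 : S_A1) : S_prop2 := by
  intro V _ P H S X Y u w f h hY hYn hne
  obtain ⟨h1, h2, h3, h4, h5, h6⟩ := tf h
  obtain ⟨k1, k2, k3, -⟩ := hkr V P H X f h.mc.ok
  have hd : Disjoint Y X := sdiff_disjoint.mono_left hY
  rw [k2 Y hd]
  have e1 := union_ge ha1 h hY hne
  have e2 : 0 ≤ ∑ v ∈ Y, sav P H X f v := sum_nonneg fun v _ => (k3 v).2.2.2.2.2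
  have e3 := h.le_a
  have e4 := P.hab
  linarith

theorem t2_of (hkr : S_killRho) (hkf : S_KF) (ha1 : S_A1) : S_T2 := by
  intro V _ P H S X u w f p h hcol
  obtain ⟨h1, h2, h3, h4, h5, h6⟩ := tf h
  obtain ⟨k1, k2, k3, -⟩ := hkr V P H X f h.mc.ok
  obtain ⟨Y, hY, hYn, hle⟩ := hkf V P H S X f p h.mc h.sub h1 hcol
  by_cases hne : Y = S \ X
  · subst hne
    have : S \ X ∪ X = S := sdiff_union_of_subset h.sub
    rw [this] at hle
    linarith
  · exfalso
    have e1 := union_ge ha1 h hY hne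
    have e2 : 0 ≤ ∑ v ∈ Y, sav P H X f v := sum_nonneg fun v _ => (k3 v).2.2.2.2.2
    have e3 := h.le_a
    have e4 := P.hab
    linarith

/-- every boundary vertex of `X` is saturated in every colouring of `X` -/
def Sat2 : Prop := ∀ (V : Type) [DecidableEq V] (P : Par) (H : Hub V) (S X : Finset V) (u w : V)
    (f : V → Bool) (p : V → V → ℤ) (x v : V),
  Top2 P H S X u w → ColBy H X f p → x ∈ X → v ∈ S \ X → Adj H x v →
    H.c (f x) x ≤ load H X f p x

theorem sat2_of (hk1f : S_K1F) (ha1 : S_A1) : Sat2 := by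
  intro V _ P H S X u w f p x v h hcol hx hv hadj
  obtain ⟨h1, h2, h3, h4, h5, h6⟩ := tf h
  by_contra hlt
  push Not at hlt
  obtain ⟨Y, hY, hYn, hle⟩ := hk1f V P H S X f p x v h.mc h.sub hcol hx hv hadj (by omega)
  by_cases hne : Y = S \ X
  · subst hne
    have : S \ X ∪ X = S := sdiff_union_of_subset h.sub
    rw [this, if_pos hv] at hle
    have e3 := h.le_a
    linarith
  · have e1 := union_ge ha1 h hY hne
    have e2 : (0 : ℤ) ≤ (if v ∈ Y then 2 * P.a else 0) := by
      have := P.hab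
      have := P.hb
      have := P.hd
      split_ifs <;> linarith
    have e3 := h.le_a
    have e4 := P.hab
    linarith

theorem force12_of (hlow : S_low) (ha1 : S_A1) (hsat : Sat2) : S_force12 := by
  intro V _ P H S X u w x v i h hx hv hadj
  obtain ⟨h1, h2, h3, h4, h5, h6⟩ := tf h
  obtain ⟨l1, l2, l3, l4, l5⟩ := hlow V P H (!i) x h.mc.ok
  have hcard : X.card < S.card := card_lt_card (h.sub.ssubset_of_ne h2)
  have hp1 := P.hab
  have hp2 := P.hb
  have hp3 := P.hd
  have hkap : kap P (!i) ≤ P.a ∧ 0 ≤ kap P (!i) := by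
    unfold kap
    split_ifs <;> constructor <;> linarith
  have hyp : Hyp P (low H (!i) x) X := by
    intro Y hYX hYn
    have hYS : Y ≠ S := by
      rintro rfl
      exact h2 (Subset.antisymm h.sub hYX)
    have e1 := ha1 V P H S Y h.mc (hYX.trans h.sub) hYn hYS
    have e2 := l2 Y
    have e3 : (if x ∈ Y then 2 * kap P (!i) else 0) ≤ 2 * P.a := by
      split_ifs <;> linarith [hkap.1, hkap.2]
    linarith
  obtain ⟨f, p, hc⟩ := h.mc.ih2 (low H (!i) x) X l1 hyp (eE_mono h.mc.ok h.sub) hcard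
  obtain ⟨c1, c2⟩ := l4 X f p hc
  refine ⟨f, p, c1, ?_⟩
  by_contra hfi
  have hfi' : f x = !i := by
    cases i <;> cases hh : f x <;> simp_all
  have c3 := (c2 hx hfi').1
  have c4 := hsat V P H S X u w f p x v h c1 hx hv hadj
  rw [hfi'] at c4
  linarith


theorem top2 : S_top2 := top2_of low_h delr_h Pool.Agent.N2.DF.trSoft e0_h caps_h

theorem prop2 : S_prop2 := prop2_of killRho_h a1_h

theorem t2 : S_T2 := t2_of killRho_h kf_h a1_h

theorem sat2 : Sat2 := sat2_of k1f_h a1_h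

theorem force12 : S_force12 := force12_of low_h a1_h sat2

end Pool.Agent.N701.DF
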